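import Mathlib
import Pool.Agent.L5helper35.KH.Par
import Pool.Agent.L5helper35.KH.Upper2

/-!
# The k-step halting problem for mixed integer programming formulations: the size is `n ^ Θ(√k)`

A formulation is a finite union of polyhedra (for example the feasible set of a mixed integer program) with a point
for every halting computation, with at most `k` steps, of a fixed nondeterministic one-tape machine `u` with `n` states
and `n` symbols. For a submachine `x` of `u` one may choose any affine objective functions which compute the
number of steps outside `x` at the points of the computations; a positive lower bound for them on the polyhedra
proves that `x` does not halt within `k` steps.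

Formulations of size `f(k) * n ^ (20 * (√k + 1))` prove all true lower bounds. Formulations of size
`n ^ (c √k)` do not even prove that `n ^ (- c √k)` forbidden steps are necessary, for machines `x` for which a
third of the steps of every halting computation of `u` is forbidden. So there are no formulations of size
`f(k) * n ^ c`, and none which separate machines that halt within `k` steps from these machines; this holds for
almost all machines of a list, and also when `k` grows with `n`, up to a power of `n`.

Proof of the lower bound. There are `κ ~ √k` groups of equations in `κ` seed bits, six seed bits in every equation, a
bounded number of equations in every group; the system is expanding and has random right sides. The seed bit `z i` is the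
inner product of the vector `X i`, given by `x`, and a hidden vector `Y i` with about `log n` bits (plus
a hidden bit). The machine `u` guesses one symbol for every group, the hidden data at the places of the equations of the
group, and then compares the symbols pairwise; in `x` such a comparison is possible only if the equations of
both groups hold. For all seeds less than `51` percent of the groups hold, so in every halting computation of
`u` at least a third of the `k` steps is forbidden. There is a pseudo-density on `{0, 1} ^ κ`, with positive means
on all subcubes of codimension `c κ`, in which all equations hold. By the lifting lemma (`MIP.lift`) and Farkas'
lemma small formulations do not see the difference.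

Proof of the upper bound. For fixed directions of the moves a sweep through the tape, in blocks of `√k` cells, has
`n ^ O(√k)` nodes (`L5helper58`); the computations are paths in a layered graph, and the polyhedron of the
unit flows in this graph has the minimal cost of a path as its minimum.
-/

set_option autoImplicit false

namespace Pool.Agent.Results.MP_7836d5_lc.MixedIntegerPrograms

open Pool.Agent.L5helper35.KH
open Pool.Agent.L5helper58.KS (Tab)
open Pool.Agent.L5helper35.MIP (Formulation)

/-- (1) Formulations of size `n ^ (c √k)` do not separate machines which halt within `k` steps from machines such that
`k / 3` steps of every halting computation of a supermachine `u` are forbidden. (2) For every `k` there are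
formulations of size `A * n ^ (20 * (√k + 1))` which prove all true lower bounds for the number of the
forbidden steps. -/
theorem result :
    (∃ (c : ℝ) (C : ℕ), 0 < c ∧ ∀ k n : ℕ, C ≤ k → k ^ C ≤ n → GapHard n k (c * √k)) ∧
    ∀ k : ℕ, ∃ A : ℕ, ∀ (n : ℕ) (u : Tab n → Bool), 1 ≤ n → ∃ F : Formulation (Comp u k),
      F.size ≤ A * n ^ (20 * (Nat.sqrt k + 1)) ∧
      ∀ (x : Tab n → Bool) (γ : ℝ), (∀ h : Comp u k, γ ≤ forbidden x h.1) →
        F.Certifies (fun h => (forbidden x h.1 : ℝ)) γ :=
  ⟨low_main, fun k => ⟨_, fun n u hn => upper_main n k hn u⟩⟩

end Pool.Agent.Results.MP_7836d5_lc.MixedIntegerPrograms
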