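import Pool.Agent.L5helper58.KS.Cost

/-!
# The `k`-step halting problem is decidable in time `C ^ k * n ^ O(√k)`

The `k`-step halting problem asks whether a nondeterministic Turing machine `M` (one tape, arbitrary
numbers of states, symbols and transitions), started on the blank tape, can enter a halting state
after at most `k` steps. Exhaustive search takes time `n ^ O(k)` where `n` is the size of the
description of `M`. We show that a deterministic Turing machine can decide it in time
`C ^ (k + 1) * n ^ (C * (√k + 1))`, for one constant `C`.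

The proof: fix the directions of the moves (`3 ^ k` possibilities). The transitions used at the
times `0, 1, ...` have to solve a constraint satisfaction problem: the states have to fit at
consecutive times, and the symbols have to fit at consecutive visits of a cell. Cut the tape into
blocks of `√k + 1` cells, with an offset for which the head moves from one block to another at most
`√k` times. Go through the times block by block, and inside a block in the natural order. Then at
each moment only `2 * (√k + 1)` of the transitions chosen so far matter for the remaining ones: those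
at the crossings, the last one, and the last one for each cell of the present block. So it suffices
to keep a list of at most `(k * n + 1) ^ (2 * (√k + 1))` partial solutions.

The machine model is that of Mathlib (`Turing.FinTM2`, `Turing.TM2OutputsInTime`); instances are
coded by bit strings as in `Pool/Agent/NPC/Defs.lean` (numbers in binary, the bound `k` in unary).
-/

set_option autoImplicit false

namespace Pool.Agent.Results.MP_7836d5_lc.SquareRootExponent

open Pool.Agent.NPC Pool.Agent.L5helper58.KS Turing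

theorem pow_expo_le (M : Machine) (k n : ℕ) (hn : M.1.length < n) :
    2 ^ expo (M, List.replicate k ()) ≤
      2 ^ (14 * (k + 1)) * n ^ (2 * (Nat.sqrt k + 1)) := by
  obtain ⟨s, hs⟩ : ∃ s, s = Nat.sqrt k + 1 := ⟨_, rfl⟩
  have hs1 : k < s * s := by
    have := Nat.lt_succ_sqrt k
    rw [Nat.succ_eq_add_one, ← hs] at this
    exact this
  have hs2 : s * s ≤ 2 * (k + 1) := by
    have h1 := Nat.sqrt_le k
    obtain ⟨a, ha⟩ : ∃ a, a = Nat.sqrt k := ⟨_, rfl⟩
    rw [← ha] at h1 hs
    subst hs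
    rcases Nat.eq_zero_or_pos a with h | h
    · subst h
      omega
    · obtain ⟨b, rfl⟩ : ∃ b, a = b + 1 := ⟨a - 1, by omega⟩
      nlinarith [Nat.zero_le (b * b)]
  have hn0 : 0 < n := by omega
  unfold expo
  rw [List.length_replicate, ← hs]
  have hsize : 2 ^ (k * M.1.length + 1).size ≤ 2 * (s * s * n) := by
    have h1 : k * M.1.length + 1 ≤ s * s * n := by
      calc k * M.1.length + 1 ≤ k * n + n := by
            have := Nat.mul_le_mul_left k hn.le
            omega
        _ = (k + 1) * n := by ring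
        _ ≤ s * s * n := Nat.mul_le_mul_right n hs1
    have h2 : 2 ^ ((k * M.1.length + 1).size - 1) ≤ k * M.1.length + 1 := by
      have h3 : 0 < (k * M.1.length + 1).size := Nat.size_pos.mpr (Nat.succ_pos _)
      exact Nat.lt_size.mp (by omega)
    have h3 : 0 < (k * M.1.length + 1).size := Nat.size_pos.mpr (Nat.succ_pos _)
    have h4 : 2 ^ (k * M.1.length + 1).size = 2 * 2 ^ ((k * M.1.length + 1).size - 1) := by
      rw [← pow_succ']
      congr 1
      omega
    rw [h4]
    exact Nat.mul_le_mul_left 2 (h2.trans h1)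
  have hss : s ≤ 2 ^ s := Nat.lt_two_pow_self.le
  calc 2 ^ (2 * k + 2 * s * (k * M.1.length + 1).size)
      = 2 ^ (2 * k) * (2 ^ (k * M.1.length + 1).size) ^ (2 * s) := by
        rw [pow_add, ← pow_mul 2 (k * M.1.length + 1).size, mul_comm (2 * s)]
    _ ≤ 2 ^ (2 * k) * (2 * (s * s * n)) ^ (2 * s) :=
        Nat.mul_le_mul_left _ (Nat.pow_le_pow_left hsize _)
    _ ≤ 2 ^ (2 * k) * (2 * (2 ^ s * 2 ^ s * n)) ^ (2 * s) := by gcongr
    _ = 2 ^ (2 * k + 2 * s + 4 * (s * s)) * n ^ (2 * s) := by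
        rw [mul_pow, mul_pow, mul_pow, ← pow_mul, pow_add, pow_add]
        ring
    _ ≤ 2 ^ (14 * (k + 1)) * n ^ (2 * s) := by
        refine Nat.mul_le_mul_right _ (Nat.pow_le_pow_right (by norm_num) ?_)
        have : s ≤ s * s := Nat.le_mul_self s
        omega

theorem bound_X {n k s E X : ℕ} (hn0 : 0 < n) (hs : 0 < s)
    (hexp : 2 ^ E ≤ 2 ^ (14 * (k + 1)) * n ^ (2 * s))
    (hX : X = n + 2 * k + 2 + 2 ^ (2 * E + 4)) : X ≤ 2 ^ (33 * (k + 1)) * n ^ (4 * s) := by
  have h1 : 2 ^ (2 * E + 4) ≤ 2 ^ (32 * (k + 1)) * n ^ (4 * s) := by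
    calc 2 ^ (2 * E + 4) = (2 ^ E) ^ 2 * 2 ^ 4 := by
          rw [pow_add, mul_comm 2, pow_mul]
      _ ≤ (2 ^ (14 * (k + 1)) * n ^ (2 * s)) ^ 2 * 2 ^ 4 :=
          Nat.mul_le_mul_right _ (Nat.pow_le_pow_left hexp 2)
      _ = 2 ^ (28 * (k + 1) + 4) * n ^ (4 * s) := by
          rw [mul_pow, ← pow_mul, ← pow_mul, pow_add 2 (28 * (k + 1)) 4]
          ring
      _ ≤ 2 ^ (32 * (k + 1)) * n ^ (4 * s) :=
          Nat.mul_le_mul_right _ (Nat.pow_le_pow_right (by norm_num) (by omega))
  have h2 : n + 2 * k + 2 ≤ 2 ^ (32 * (k + 1)) * n ^ (4 * s) := by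
    have h3 : n ≤ n ^ (4 * s) := Nat.le_self_pow (by omega) n
    have h4 : 2 * k + 3 ≤ 2 ^ (32 * (k + 1)) := by
      have h5 : 32 * (k + 1) < 2 ^ (32 * (k + 1)) := Nat.lt_two_pow_self
      exact le_trans (by omega) h5.le
    have h6 : n + 2 * k + 2 ≤ n * (2 * k + 3) := by
      obtain ⟨a, rfl⟩ : ∃ a, n = a + 1 := ⟨n - 1, by omega⟩
      have : (a + 1) * (2 * k + 3) = a * (2 * k + 3) + (2 * k + 3) := by ring
      have h7 : a * 1 ≤ a * (2 * k + 3) := Nat.mul_le_mul_left a (by omega)
      omega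
    calc n + 2 * k + 2 ≤ n * (2 * k + 3) := h6
      _ ≤ n ^ (4 * s) * 2 ^ (32 * (k + 1)) := Nat.mul_le_mul h3 h4
      _ = _ := mul_comm _ _
  rw [hX]
  calc n + 2 * k + 2 + 2 ^ (2 * E + 4)
      ≤ 2 ^ (32 * (k + 1)) * n ^ (4 * s) + 2 ^ (32 * (k + 1)) * n ^ (4 * s) :=
        Nat.add_le_add h2 h1
    _ = 2 ^ (32 * (k + 1) + 1) * n ^ (4 * s) := by
        rw [pow_succ 2 (32 * (k + 1))]
        ring
    _ ≤ 2 ^ (33 * (k + 1)) * n ^ (4 * s) :=
        Nat.mul_le_mul_right _ (Nat.pow_le_pow_right (by norm_num) (by omega))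

theorem bound_T {n k s C₀ D₀ X V : ℕ} (hn0 : 0 < n) (hX1 : 1 ≤ X)
    (hX : X ≤ 2 ^ (33 * (k + 1)) * n ^ (4 * s)) (hV : V ≤ C₀ * X ^ D₀) :
    V + 1 ≤ ((C₀ + 1) * 2 ^ (33 * D₀) + 4 * D₀) ^ (k + 1) *
      n ^ (((C₀ + 1) * 2 ^ (33 * D₀) + 4 * D₀) * s) := by
  have e2 : 1 ≤ X ^ D₀ := Nat.one_le_pow _ _ hX1
  have e3 : X ^ D₀ ≤ (2 ^ (33 * (k + 1)) * n ^ (4 * s)) ^ D₀ := Nat.pow_le_pow_left hX D₀
  have e4 : (2 ^ (33 * (k + 1)) * n ^ (4 * s)) ^ D₀ =
      (2 ^ (33 * D₀)) ^ (k + 1) * n ^ (4 * D₀ * s) := by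
    rw [mul_pow, ← pow_mul, ← pow_mul, ← pow_mul]
    congr 2 <;> ring
  calc V + 1 ≤ C₀ * X ^ D₀ + X ^ D₀ := Nat.add_le_add hV e2
    _ = (C₀ + 1) * X ^ D₀ := by ring
    _ ≤ (C₀ + 1) * ((2 ^ (33 * D₀)) ^ (k + 1) * n ^ (4 * D₀ * s)) :=
        Nat.mul_le_mul_left _ (e3.trans e4.le)
    _ = (C₀ + 1) * (2 ^ (33 * D₀)) ^ (k + 1) * n ^ (4 * D₀ * s) := (mul_assoc _ _ _).symm
    _ ≤ (C₀ + 1) ^ (k + 1) * (2 ^ (33 * D₀)) ^ (k + 1) * n ^ (4 * D₀ * s) :=
        Nat.mul_le_mul_right _ (Nat.mul_le_mul_right _ (Nat.le_self_pow (by omega) _))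
    _ = ((C₀ + 1) * 2 ^ (33 * D₀)) ^ (k + 1) * n ^ (4 * D₀ * s) := by
        rw [mul_pow (C₀ + 1) (2 ^ (33 * D₀)) (k + 1)]
    _ ≤ ((C₀ + 1) * 2 ^ (33 * D₀) + 4 * D₀) ^ (k + 1) *
          n ^ (((C₀ + 1) * 2 ^ (33 * D₀) + 4 * D₀) * s) :=
        Nat.mul_le_mul (Nat.pow_le_pow_left (Nat.le_add_right _ _) _)
          (Nat.pow_le_pow_right hn0 (Nat.mul_le_mul_right s (Nat.le_add_left _ _)))

/-- **Theorem.** There are a constant `C` and a deterministic Turing machine that decides the
`k`-step halting problem: for every nondeterministic one-tape machine `M` and every `k`, given (the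
code of) `M` and `k` in unary, it answers in time at most `C ^ (k + 1) * n ^ (C * (√k + 1))`
whether `M`, started on the blank tape, can enter a halting state after at most `k` steps; here `n`
is the length of the code of `M`. -/
theorem result : ∃ (C : ℕ) (tm : FinTM2) (e₀ : tm.Γ tm.k₀ ≃ Bool) (e₁ : tm.Γ tm.k₁ ≃ Bool),
    ∀ (M : Machine) (k : ℕ) (b : Bool), (b = true ↔ Halts M k) →
      Nonempty (TM2OutputsInTime tm ((bits (M, List.replicate k ())).map e₀.invFun)
        (some ((bits b).map e₁.invFun))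
        (C ^ (k + 1) * (bits M).length ^ (C * (Nat.sqrt k + 1)))) := by
  obtain ⟨c, P, hc⟩ := fpt_run (fun a : Inst => algB a.1 a.2.length) expo (fun n => n)
    upoly_expo poly_algB
  obtain ⟨C₀, D₀, hP⟩ := eval_le_pow P
  obtain ⟨tm, e₀, e₁, htm⟩ := runs_to_tm _ c _ hc
  refine ⟨(C₀ + 1) * 2 ^ (33 * D₀) + 4 * D₀, tm, e₀, e₁, fun M k b hb => ?_⟩
  obtain ⟨h⟩ := htm (M, List.replicate k ())
  have hbb : algB M (List.replicate k ()).length = b := by
    rw [List.length_replicate, Bool.eq_iff_iff, algB_iff, hb]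
  refine ⟨outputs_conv rfl ?_ ?_ h⟩
  · rw [hbb]
  · have hnM : M.1.length < (bits M).length := by
      have h1 := length_lt_sz M.1
      have h2 : sz M = sz M.1 + sz M.2 + 1 := sz_pair M.1 M.2
      rw [bits_length]
      omega
    have hlen : (bits (M, List.replicate k ())).length = (bits M).length + 2 * k + 2 := by
      have h2 : sz (M, List.replicate k ()) = sz M + sz (List.replicate k ()) + 1 :=
        sz_pair M (List.replicate k ())
      rw [bits_length, h2, sz_replicate_unit, bits_length]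
      ring
    have hexp := pow_expo_le M k _ hnM
    change P.eval ((bits (M, List.replicate k ())).length +
      2 ^ (2 * expo (M, List.replicate k ()) + 4)) + 1 ≤ _
    rw [hlen]
    have hX1 : 1 ≤ (bits M).length + 2 * k + 2 +
        2 ^ (2 * expo (M, List.replicate k ()) + 4) :=
      le_trans (by omega) (Nat.le_add_right ((bits M).length + 2 * k + 2) _)
    exact bound_T (by omega) hX1 (bound_X (by omega) (Nat.succ_pos _) hexp rfl) (hP _ hX1)

end Pool.Agent.Results.MP_7836d5_lc.SquareRootExponent
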