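import Pool.Agent.L5helper58.KS.Up
import Pool.Agent.L5helper58.KS.Low

/-!
# The `k`-step halting problem for circuits: the exponent is of the order `√k`

MP_7836d5_lc. The nondeterministic one-tape Turing machines with `n` states and `n` symbols are given
by tables of bits, one bit for each possible transition. For each `k`, monotone circuits of size
`f(k) * n ^ O(√k)` decide whether the machine halts after at most `k` steps; circuits with few
non-monotone gates need size `n ^ Ω(√k)`, also if they are randomised, and for one distribution.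
-/

set_option autoImplicit false

namespace Pool.Agent.Results.MP_7836d5_lc.TightCircuitExponent

open Finset Filter Pool.Agent.H520R2.NM Pool.Agent.L5helper58.KS

open Classical in
/-- Monotone circuits of size `f(k) * n ^ (20 * (√k + 1))` decide the `k`-step halting problem, and
circuits whose non-monotone gates have fan-ins `m i` with `∏ (m i + 1) ≤ n ^ γ` need size
`n ^ (θ * (√(k + 2) - 1))` for all `θ < 1 - γ / 2`. -/
theorem result :
    (∀ k : ℕ, ∃ F : ℕ, ∀ n : ℕ, 1 ≤ n →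
      ∃ (N : ℕ) (C : Circuit (Tab n) N) (out : Wire (Tab n) N), C.fanins = [] ∧
        C.size ≤ F * n ^ (20 * (Nat.sqrt k + 1)) ∧
        ∀ x, out.eval x (C.vals x) = true ↔ Halts (machineOf x) k) ∧
    ∀ k : ℕ, 14 ≤ k → ∀ γ θ : ℝ, 0 ≤ γ → 0 < θ → θ + γ / 2 < 1 →
      ∃ α : ℝ, 0 < α ∧ ∀ᶠ n : ℕ in atTop,
        (∃ (Λ : Type) (_ : Fintype Λ) (_ : Nonempty Λ) (x : Λ → Tab n → Bool),
          ∀ (N : ℕ) (C : Circuit (Tab n) N) (out : Wire (Tab n) N),
            (((C.fanins.map (· + 1)).prod : ℕ) : ℝ) ≤ (n : ℝ) ^ γ →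
            ((C.size + C.fanins.sum : ℕ) : ℝ) < (n : ℝ) ^ (θ * (Nat.sqrt (k + 2) - 1)) →
            ((univ.filter (fun l => (out.eval (x l) (C.vals (x l)) = true ↔
              Halts (machineOf (x l)) k))).card : ℝ) <
              (1 / 2 + (n : ℝ) ^ (-α)) * Fintype.card Λ) ∧
        ∀ (Ω : Type) [Fintype Ω] (w : Ω → ℝ), (∀ r, 0 ≤ w r) → ∑ r, w r = 1 →
          ∀ (N : Ω → ℕ) (C : ∀ r, Circuit (Tab n) (N r)) (out : ∀ r, Wire (Tab n) (N r)),
            (∀ r, ((((C r).fanins.map (· + 1)).prod : ℕ) : ℝ) ≤ (n : ℝ) ^ γ) →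
            (∀ r, (((C r).size + (C r).fanins.sum : ℕ) : ℝ) <
              (n : ℝ) ^ (θ * (Nat.sqrt (k + 2) - 1))) →
            ∃ x : Tab n → Bool,
              ∑ r ∈ univ.filter (fun r => ((out r).eval x ((C r).vals x) = true ↔
                Halts (machineOf x) k)), w r < 1 / 2 + (n : ℝ) ^ (-α) := by
  refine ⟨fun k => ⟨_, fun n hn => upper k n hn⟩, fun k hk γ θ hγ hθ h => ?_⟩
  obtain ⟨κ, hκ⟩ : ∃ κ, Nat.sqrt (k + 2) = κ + 1 := by
    refine ⟨Nat.sqrt (k + 2) - 1, ?_⟩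
    have : 4 ≤ Nat.sqrt (k + 2) := Nat.le_sqrt.mpr (by omega)
    omega
  have hκ3 : 3 ≤ κ := by
    have : 4 ≤ Nat.sqrt (k + 2) := Nat.le_sqrt.mpr (by omega)
    omega
  have hk2 : κ * κ + 2 * κ ≤ k + 1 := by
    have h1 := Nat.sqrt_le (k + 2)
    rw [hκ] at h1
    have : (κ + 1) * (κ + 1) = κ * κ + 2 * κ + 1 := by ring
    omega
  have hcast : ((Nat.sqrt (k + 2) : ℕ) : ℝ) - 1 = κ := by
    rw [hκ]
    push_cast
    ring
  obtain ⟨α, hα, hmain⟩ := lower_gen hκ3 hk2 hγ hθ h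
  refine ⟨α, hα, ?_⟩
  rw [hcast]
  filter_upwards [hmain] with n hn
  obtain ⟨Λ, hΛ1, hΛ2, x, hx⟩ := hn
  refine ⟨⟨Λ, hΛ1, hΛ2, x, fun N C out h1 h2 => hx N C out h1 h2⟩, ?_⟩
  intro Ω _ w hw hw1 N C out h1 h2
  obtain ⟨l, hl⟩ := Pool.Agent.H559R8.rand_of_dist' (1 / 2 + (n : ℝ) ^ (-α))
    (fun r l => ((out r).eval (x l) ((C r).vals (x l)) = true ↔
      Halts (machineOf (x l)) k)) w hw hw1
    (fun r => by
      have := hx _ (C r) (out r) (h1 r) (h2 r)
      convert this)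
  refine ⟨x l, ?_⟩
  convert hl

end Pool.Agent.Results.MP_7836d5_lc.TightCircuitExponent
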