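import Pool.Agent.L5helper51.WH.Super

/-!
# The `k`-step halting problem for algorithms with wide nondecreasing instructions

MP_7836d5_lc. The input is a nondeterministic one-tape Turing machine with `n` states and `n` symbols,
given by a table of `3 n ^ 4` bits. An algorithm (`Alg`) works on an unlimited memory of real numbers
(rows of `w` numbers). One instruction (`Ins`) reads `w` numbers, each of them a bit of the table or
an entry of the memory, and writes `w` numbers, ARBITRARY nondecreasing functions of the numbers
read. A test compares a bit of the table or an entry of the memory with a threshold and branches.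
`Decides k n w ℓ g q`: a probabilistic algorithm of this kind with at most `ℓ` leaves and at most `g`
instructions on each path accepts the machines that halt within `k` steps and rejects those that never
halt, with probability at least `1 / 2 + 1 / q` for each machine (nothing is asked of the other
machines).

1. `n ^ (2 r) ≤ K (log₂ n + 1) ^ (4 r ^ 2) ((ℓ q) ^ 4 w) ^ r g` for all `r ≥ 2` with
   `(2 r + 1) ^ 2 ≤ k + 2`; so the exponent of `n ^ 2 / w` in the number of instructions grows as
   `√k / 2`.
2. No bound `f(k) n ^ d` holds for the number of instructions, for any function `f` and any `d`, even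
   if the instructions and the branching satisfy only `(ℓ q) ^ 4 w ≤ n ^ (2 - 1 / m)`.
3. The same for the time `T` of machines with `R ≤ n ^ (2 - 1 / m)` registers which in each step read
   one bit of the table and replace the contents of ALL registers by arbitrary nondecreasing
   functions of the old contents and of this bit.

Proof. Reduction from clique detection for `κ = 2 r`: the table of the machine depends on the graph
by projections, and the machine halts within `k ≥ κ ^ 2 + 2 κ - 1` steps or never. For cliques:
approximators. Each place of the memory is approximated by the maximum of a constant and of values of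
the edge sets of few small vertex sets, defined by quantiles over random `(κ - 1)`-coloured graphs.
A clique lost at an instruction contains an uncovered pair of vertices in each of its `r` parts of two
vertices, taken from a set of `O (w polylog n)` pairs, so there are `O (w polylog n) ^ r` lost
cliques for each order of the vertices.
-/

namespace Pool.Agent.Results.MP_7836d5_lc.WideWordAlgorithms

open Pool.Agent.L5helper51.WG Pool.Agent.L5helper51.WH Pool.Agent.L5helper58.KS

theorem result :
    (∀ r k : ℕ, 2 ≤ r → (2 * r + 1) ^ 2 ≤ k + 2 → ∃ K : ℕ, ∀ n w ℓ g q : ℕ,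
      1 ≤ w → 1 ≤ g → 1 ≤ q → Decides k n w ℓ g q →
        n ^ (2 * r) ≤ K * (Nat.log 2 n + 1) ^ (4 * r ^ 2) * ((ℓ * q) ^ 4 * w) ^ r * g) ∧
    (∀ (f : ℕ → ℕ) (d m : ℕ), 1 ≤ m → ∃ k0 : ℕ, ∀ k ≥ k0, ∃ n0 : ℕ, ∀ n ≥ n0,
      (∀ w ℓ g q : ℕ, 1 ≤ w → 1 ≤ g → 1 ≤ q → ((ℓ * q) ^ 4 * w) ^ m ≤ n ^ (2 * m - 1) →
        Decides k n w ℓ g q → f k * n ^ d < g) ∧
      (∀ R T : ℕ, ∀ hR : 0 < R, R ^ m ≤ n ^ (2 * m - 1) →
        ∀ l : List (Stp (Tab n) R), l.length ≤ T → ∀ (s0 : Fin R → ℝ) (θ : ℝ),
          (∀ x : Tab n → Bool, Right k x (decide (θ ≤ scan (val x) l s0 ⟨0, hR⟩))) →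
          f k * n ^ d < T)) :=
  ⟨fun r k hr hk => lower' r k hr hk, fun f d m hm => not_fpt f d m hm⟩

end Pool.Agent.Results.MP_7836d5_lc.WideWordAlgorithms
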